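import Mathlib
import Pool.Agent.Y920.HN.Stm

/-! HN-CPT (helper908) : closed sets with finite images in all `G ⧸ V n` are compact. -/

set_option autoImplicit false

open Filter Topology

namespace Pool.Agent.Y908.HN

open Pool.Agent.Y920.HN

theorem t_CPT : S_CPT := by
  intro G _ _ _ F S hS hfin
  rw [isCompact_iff_ultrafilter_le_nhds]
  intro u hu
  have hSu : S ∈ u := by
    have := hu (mem_principal_self S)
    exact this
  have h1 : ∀ n, ∃ g : G, {x : G | g⁻¹ * x ∈ F.V n} ∈ u := by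
    intro n
    have hsub : S ⊆ ⋃ q ∈ ((fun x : G => (x : G ⧸ F.V n)) '' S), {x : G | (x : G ⧸ F.V n) = q} := by
      intro x hx
      rw [Set.mem_iUnion₂]
      exact ⟨(x : G ⧸ F.V n), ⟨x, hx, rfl⟩, rfl⟩
    have hmem := Filter.mem_of_superset hSu hsub
    obtain ⟨q, hq, hqu⟩ := (Ultrafilter.finite_biUnion_mem_iff (hfin n)).1 hmem
    obtain ⟨g, _, rfl⟩ := hq
    refine ⟨g, Filter.mem_of_superset hqu ?_⟩
    intro x hx
    exact QuotientGroup.eq.1 (Eq.symm hx)
  choose g hg using h1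
  have h2 : ∀ n, (g n)⁻¹ * g (n + 1) ∈ F.V n := by
    intro n
    obtain ⟨x, hx1, hx2⟩ := Ultrafilter.nonempty_of_mem (inter_mem (hg n) (hg (n + 1)))
    have h3 : (g (n + 1))⁻¹ * x ∈ F.V n := F.anti (Nat.le_succ n) hx2
    have h4 := (F.V n).mul_mem hx1 ((F.V n).inv_mem h3)
    have e : (g n)⁻¹ * x * ((g (n + 1))⁻¹ * x)⁻¹ = (g n)⁻¹ * g (n + 1) := by group
    rwa [e] at h4
  obtain ⟨x, hx⟩ := F.complete g h2
  have hux : (u : Filter G) ≤ 𝓝 x := by
    intro U hU
    have h3 : (fun y => x * y) ⁻¹' U ∈ 𝓝 (1 : G) := by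
      have hc : ContinuousAt (fun y : G => x * y) 1 := (continuous_const.mul continuous_id).continuousAt
      have h4 : U ∈ 𝓝 (x * 1) := by rwa [mul_one]
      exact hc h4
    obtain ⟨n, hn⟩ := F.base _ h3
    refine Filter.mem_of_superset (hg n) ?_
    intro y hy
    have h5 : x⁻¹ * y ∈ F.V n := by
      have h6 := (F.V n).mul_mem ((F.V n).inv_mem (hx n)) hy
      have e : ((g n)⁻¹ * x)⁻¹ * ((g n)⁻¹ * y) = x⁻¹ * y := by group
      rwa [e] at h6
    have h7 := hn h5
    have e : x * (x⁻¹ * y) = y := by group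
    rw [Set.mem_preimage, e] at h7
    exact h7
  exact ⟨x, isClosed_iff_ultrafilter.1 hS x u hux hSu, hux⟩

end Pool.Agent.Y908.HN
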