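import Mathlib
import Pool.Agent.Y920.HN.Stm

/-! HN-GRP (helper908) : a sparse and thick set in a countable group. -/

set_option autoImplicit false

namespace Pool.Agent.Y908.HN

open Pool.Agent.Y920.HN

open Classical in
theorem grp_step {Q : Type} [Group Q] (M : Subgroup Q) [hM : M.Normal] (t : Q)
    (hinf : {q : Q | ∃ m ∈ M, q = m * t * m⁻¹}.Infinite) (P E : Finset Q) (g : Q) :
    ∃ h : Q, (∃ m ∈ M, h = m * g) ∧ (∀ e ∈ E, ∀ e' ∈ E, e * h * t ≠ e' * h) ∧
      ∀ e ∈ E, ∀ p ∈ P, e * h ≠ p * t ∧ e * h * t ≠ p := by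
  by_contra hcon
  push Not at hcon
  let F : Finset Q := ((E ×ˢ P).image fun x => x.1⁻¹ * x.2 * t * g⁻¹) ∪
    ((E ×ˢ P).image fun x => x.1⁻¹ * x.2 * t⁻¹ * g⁻¹)
  have hkey : ∀ m ∈ M, (∃ e ∈ E, ∃ e' ∈ E, e * (m * g) * t = e' * (m * g)) ∨ m ∈ F := by
    intro m hm
    by_contra hno
    push Not at hno
    obtain ⟨hno1, hno2⟩ := hno
    obtain ⟨e, he, p, hp, h1⟩ := hcon (m * g) ⟨m, hm, rfl⟩ hno1
    apply hno2
    rw [Finset.mem_union, Finset.mem_image, Finset.mem_image]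
    by_cases h2 : e * (m * g) = p * t
    · left
      refine ⟨(e, p), Finset.mem_product.2 ⟨he, hp⟩, ?_⟩
      show e⁻¹ * p * t * g⁻¹ = m
      rw [mul_assoc e⁻¹, ← h2]
      group
    · right
      have h3 := h1 h2
      refine ⟨(e, p), Finset.mem_product.2 ⟨he, hp⟩, ?_⟩
      show e⁻¹ * p * t⁻¹ * g⁻¹ = m
      rw [← h3]
      group
  apply hinf
  refine Set.Finite.subset (s := ((((E ×ˢ E).image fun x => g⁻¹ * x.1⁻¹ * x.2 * g) ∪
    (F.image fun x => (g⁻¹ * x * g) * t * (g⁻¹ * x * g)⁻¹) : Finset Q) : Set Q))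
    (Finset.finite_toSet _) ?_
  rintro q ⟨m, hm, rfl⟩
  have hm' : g * m * g⁻¹ ∈ M := hM.conj_mem m hm g
  rw [Finset.mem_coe, Finset.mem_union, Finset.mem_image, Finset.mem_image]
  rcases hkey _ hm' with ⟨e, he, e', he', h1⟩ | h1
  · left
    refine ⟨(e, e'), Finset.mem_product.2 ⟨he, he'⟩, ?_⟩
    show g⁻¹ * e⁻¹ * e' * g = m * t * m⁻¹
    have h2 : e' * (g * m * g⁻¹ * g) = e' * g * m := by group
    have h3 : e * (g * m * g⁻¹ * g) * t = e * g * m * t := by group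
    rw [h2, h3] at h1
    have h4 : e' * g = e * g * m * t * m⁻¹ := by rw [h1]; group
    calc g⁻¹ * e⁻¹ * e' * g = g⁻¹ * e⁻¹ * (e' * g) := by group
      _ = m * t * m⁻¹ := by rw [h4]; group
  · right
    refine ⟨_, h1, ?_⟩
    have e : g⁻¹ * (g * m * g⁻¹) * g = m := by group
    rw [e]

open Classical in
theorem t_GRP : S_GRP := by
  intro Q _ _ M hM t _ hinf
  obtain ⟨p, hp⟩ := exists_surjective_nat (Finset Q × Q)
  choose f hf1 hf2 hf3 using grp_step M t hinf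
  let P : ℕ → Finset Q := fun n => Nat.rec ∅ (fun n P => P ∪
    ((p n).1.image fun e => e * f P (p n).1 (p n).2)) n
  have hP1 : ∀ n, P (n + 1) = P n ∪ ((p n).1.image fun e => e * f (P n) (p n).1 (p n).2) :=
    fun n => rfl
  have hmono : Monotone P := monotone_nat_of_le_succ fun n => by
    rw [hP1]
    exact Finset.subset_union_left
  have hfree : ∀ n, ∀ x ∈ P n, x * t ∉ P n := by
    intro n
    induction n with
    | zero =>
      intro x hx
      exact absurd hx (Finset.notMem_empty x)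
    | succ n ih =>
      intro x hx hxt
      rw [hP1, Finset.mem_union, Finset.mem_image] at hx hxt
      rcases hx with hx | ⟨e, he, rfl⟩
      · rcases hxt with hxt | ⟨e, he, hxt⟩
        · exact ih x hx hxt
        · exact (hf3 (P n) (p n).1 (p n).2 e he x hx).1 hxt
      · rcases hxt with hxt | ⟨e', he', hxt⟩
        · exact (hf3 (P n) (p n).1 (p n).2 e he _ hxt).2 rfl
        · exact hf2 (P n) (p n).1 (p n).2 e he e' he' hxt.symm
  refine ⟨{x | ∃ n, x ∈ P n}, ?_, ?_⟩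
  · rintro x ⟨n, hn⟩ ⟨m, hm⟩
    exact hfree (max n m) x (hmono (le_max_left _ _) hn) (hmono (le_max_right _ _) hm)
  · intro E hE g
    obtain ⟨n, hn⟩ := hp (hE.toFinset, g)
    obtain ⟨m, hm, hmg⟩ := hf1 (P n) (p n).1 (p n).2
    refine ⟨m, hm, fun e he => ⟨n + 1, ?_⟩⟩
    rw [hP1, Finset.mem_union, Finset.mem_image]
    right
    refine ⟨e, ?_, ?_⟩
    · rw [hn]
      exact hE.mem_toFinset.2 he
    · rw [hmg, hn]

end Pool.Agent.Y908.HN
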